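import Pool.Agent.L5helper16.LG.Defs4

/-!
# From windows to consecutive elements
-/

set_option autoImplicit false

namespace Pool.Agent.L5helper43.LG

open Finset Pool.Agent.L5helper16.LG

open Classical in
theorem d5 : St_D5 := by
  intro R K x y s₁ s₂ s₃ h12 h23 hK hsep hwin
  have key : ∀ u, ∃ r s, u ∈ K → u < r ∧ r ≤ u + s₁ ∧ u + s₂ < s ∧ s ≤ u + s₃ ∧ R r ∧ R s ∧
      ∀ n : ℕ, r < n → n < s → ¬ R n := by
    intro u
    by_cases hu : u ∈ K
    · obtain ⟨⟨n1, h1, h2, h3⟩, h4, ⟨n2, h5, h6, h7⟩⟩ := hwin u hu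
      have hAne : ((Finset.Ioc u (u + s₁)).filter R).Nonempty :=
        ⟨n1, Finset.mem_filter.mpr ⟨Finset.mem_Ioc.mpr ⟨h1, h2⟩, h3⟩⟩
      have hBne : ((Finset.Ioc (u + s₂) (u + s₃)).filter R).Nonempty :=
        ⟨n2, Finset.mem_filter.mpr ⟨Finset.mem_Ioc.mpr ⟨h5, h6⟩, h7⟩⟩
      have hA := Finset.mem_filter.mp (Finset.max'_mem _ hAne)
      have hB := Finset.mem_filter.mp (Finset.min'_mem _ hBne)
      have hA1 := Finset.mem_Ioc.mp hA.1
      have hB1 := Finset.mem_Ioc.mp hB.1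
      refine ⟨_, _, fun _ => ⟨hA1.1, hA1.2, hB1.1, hB1.2, hA.2, hB.2, ?_⟩⟩
      intro n hn1 hn2 hR
      by_cases c1 : n ≤ u + s₁
      · have h8 : n ∈ (Finset.Ioc u (u + s₁)).filter R :=
          Finset.mem_filter.mpr ⟨Finset.mem_Ioc.mpr ⟨lt_trans hA1.1 hn1, c1⟩, hR⟩
        exact absurd (Finset.le_max' _ n h8) (not_le.mpr hn1)
      · by_cases c2 : n ≤ u + s₂
        · exact h4 n (not_le.mp c1) c2 hR
        · have h8 : n ∈ (Finset.Ioc (u + s₂) (u + s₃)).filter R :=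
            Finset.mem_filter.mpr ⟨Finset.mem_Ioc.mpr ⟨not_le.mp c2, le_trans hn2.le hB1.2⟩, hR⟩
          exact absurd (Finset.min'_le _ n h8) (not_le.mpr hn2)
    · exact ⟨0, 0, fun h => absurd h hu⟩
  choose r s hrs using key
  refine Finset.card_le_card_of_injOn r ?_ ?_
  · intro u hu
    have hu' : u ∈ K := hu
    obtain ⟨h1, h2, h3, h4, h5, h6, h7⟩ := hrs u hu'
    have h8 := hK u hu'
    simp only [Finset.coe_filter, Set.mem_setOf_eq, Finset.mem_Icc]
    refine ⟨⟨by omega, by omega⟩, by omega, s u, by omega, ⟨h5, h6, by omega, h7⟩, by omega,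
      by omega⟩
  · intro u hu v hv huv
    have hu' : u ∈ K := hu
    have hv' : v ∈ K := hv
    obtain ⟨h1, h2, h3, h4, h5, h6, h7⟩ := hrs u hu'
    obtain ⟨g1, g2, g3, g4, g5, g6, g7⟩ := hrs v hv'
    by_contra hne
    rcases lt_or_gt_of_ne hne with h | h
    · have := hsep u hu' v hv' h
      omega
    · have := hsep v hv' u hu' h
      omega

end Pool.Agent.L5helper43.LG
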